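import Pool.Agent.Helper89.ME.St.Cat2
import Pool.Agent.Helper89.ME.St.Lat3

/-!
# ME-B: the base theorem (section 2)
-/

set_option autoImplicit false

namespace ME

open Encodable Set Filter Topology

namespace B78

section ops

variable {α β γ δ : Type} [Primcodable α] [Primcodable β] [Primcodable γ] [Primcodable δ]

/-- composition with a uniform family of operators -/
theorem EP_opp {P : Set β → γ → Prop} (hP : EP P) {Φ : Set α → δ → Set β}
    (hΦ : EP (fun X (y : δ × β) => y.2 ∈ Φ X y.1)) :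
    EP (fun X (c : δ × γ) => P (Φ X c.1) c.2) := by
  obtain ⟨W, hW, hP⟩ := hP
  have h1 : EP (fun (X : Set α) (y : (δ × γ) × List β) =>
      W (y.2, y.1.2) ∧ ∀ b ∈ y.2, b ∈ Φ X y.1.1) := by
    refine EP.and (EP.re (hW.subst (Primrec.snd.pair (Primrec.snd.comp Primrec.fst)))) ?_
    have h2 : EP (fun (X : Set α) (z : ((δ × γ) × List β) × β) => z.2 ∈ Φ X z.1.1.1) :=
      EP.subst hΦ (f := fun z : ((δ × γ) × List β) × β => (z.1.1.1, z.2))
        ((Primrec.fst.comp (Primrec.fst.comp Primrec.fst)).pair Primrec.snd)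
    exact EP.ball (P := fun (X : Set α) (z : ((δ × γ) × List β) × β) => z.2 ∈ Φ X z.1.1.1) h2
      (g := fun y => y.2) Primrec.snd
  refine h1.ex.of_iff ?_
  intro X c
  rw [hP]

theorem RE_mem_list (s : List α) : RE (fun b => b ∈ s) := by
  induction s with
  | nil => exact (RE.const False).of_iff (by simp)
  | cons x s ih =>
    exact ((RE.eq Primrec.id (Primrec.const x)).or ih).of_iff (by simp)

theorem RE_not_mem_list (s : List α) : RE (fun b => b ∉ s) := by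
  induction s with
  | nil => exact (RE.const True).of_iff (by simp)
  | cons x s ih =>
    have h1 : RE (fun b : α => ¬ (b = x)) :=
      RE.prim (PrimrecRel.comp Primrec.eq Primrec.id (Primrec.const x)).not
    exact (h1.and ih).of_iff (by simp)

theorem ER_union_list (X : Set α) (s : List α) : ER (X ∪ {x | x ∈ s}) X :=
  ⟨fun X => X ∪ {x | x ∈ s}, IsOp.union IsOp.id (IsOp.const (RE_mem_list s)), rfl⟩

theorem ER_of_union_list (X : Set α) (s : List α) : ER X (X ∪ {x | x ∈ s}) := by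
  classical
  refine ⟨fun Y => {b | b ∈ Y ∧ b ∉ s.filter (fun x => x ∉ X)},
    EP.and (EP.mem Primrec.id) (EP.re (RE_not_mem_list _)), ?_⟩
  ext b
  simp only [mem_ofPred_eq, mem_union, List.mem_filter, decide_eq_true_eq, not_and, not_not]
  constructor
  · rintro ⟨h1 | h1, h2⟩
    · exact h1
    · exact h2 h1
  · intro h
    exact ⟨Or.inl h, fun _ => h⟩

end ops

section reals

theorem gr_injective {ι : Type} : Function.Injective (gr (ι := ι)) := by
  intro x y h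
  funext i
  have h1 : (i, x i) ∈ gr x := rfl
  rw [h] at h1
  exact h1.symm

theorem cd_injective {α : Type} [Primcodable α] : Function.Injective (cd (α := α)) :=
  encode_injective.image_injective

theorem rs_injective : Function.Injective rs := cd_injective.comp gr_injective

theorem mem_rs {h : ℕ → Bool} {p : ℕ × Bool} : encode p ∈ rs h ↔ h p.1 = p.2 := encode_mem_cd

theorem exists_generic {M C : Set (ℕ → Bool)} (hM : IsMeagre M) (hC : C.Countable) :
    ∃ y, y ∉ M ∧ y ∉ C := by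
  have h := ((ENM_univ []).inter_residual (R := Mᶜ) hM).diff_countable hC
  obtain ⟨y, ⟨⟨_, h1⟩, h2⟩, _⟩ := h.exists_mem (List.prefix_rfl)
  exact ⟨y, h1, h2⟩

theorem ER_rs_left {α : Type} [Primcodable α] {h : ℕ → Bool} {X : Set α} :
    ER (rs h) X ↔ ER (gr h) X := ER_cd_left

theorem ER_rs_right {α : Type} [Primcodable α] {h : ℕ → Bool} {X : Set α} :
    ER X (rs h) ↔ ER X (gr h) := ER_cd_right

/-- an infinite antichain -/
theorem exists_antichain : ∃ g : ℕ → ℕ → Bool, ∀ i j, i ≠ j → ¬ ER (rs (g i)) (rs (g j)) := by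
  let r : (ℕ → Bool) → (ℕ → Bool) → Prop := fun x y => ¬ ER (rs x) (rs y) ∧ ¬ ER (rs y) (rs x)
  have hr : Std.Symm r := ⟨fun x y h => ⟨h.2, h.1⟩⟩
  obtain ⟨f, -, hf⟩ := exists_seq_of_forall_finset_exists' (fun x : ℕ → Bool =>
    ¬ ER (rs x) (∅ : Set ℕ)) r (by
      intro s hs
      have h1 : IsMeagre (⋃ x ∈ s, {y : ℕ → Bool | ER (rs x) (rs y)}) := by
        refine isMeagre_biUnion s.countable_toSet (fun x hx => ?_)
        refine (G1 (hs x hx)).mono ?_
        intro y hy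
        exact (ER_rs_right.1 hy).trans (ER.right _ _)
      have h2 : (⋃ x ∈ insert (∅ : Set ℕ) (rs '' (s : Set (ℕ → Bool))),
          {y : ℕ → Bool | ER (rs y) x}).Countable := by
        refine Set.Countable.biUnion ((s.countable_toSet.image _).insert _) (fun x _ => ?_)
        exact (countable_ER_below x).preimage rs_injective
      obtain ⟨y, hy1, hy2⟩ := exists_generic h1 h2
      simp only [mem_iUnion, mem_ofPred_eq, not_exists] at hy1 hy2
      exact ⟨y, hy2 ∅ (mem_insert _ _), fun x hx => ⟨hy1 x hx,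
        hy2 (rs x) (mem_insert_of_mem _ ⟨x, hx, rfl⟩)⟩⟩)
  exact ⟨f, fun i j hij => (hf hij).1⟩

/-- `h ↦ h xor γ` -/
def xr (h γ : ℕ → Bool) : ℕ → Bool := fun n => xor (γ n) (h n)

theorem xr_xr (h γ : ℕ → Bool) : xr h (xr h γ) = γ := by
  funext n
  simp [xr]

theorem xr_comm' (h γ : ℕ → Bool) : xr (xr h γ) γ = h := by
  funext n
  simp only [xr]
  cases γ n <;> cases h n <;> rfl

/-- homeomorphism -/
def xrH (h : ℕ → Bool) : (ℕ → Bool) ≃ₜ (ℕ → Bool) where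
  toFun := xr h
  invFun := xr h
  left_inv := xr_xr h
  right_inv := xr_xr h
  continuous_toFun := by
    refine continuous_pi (fun n => ?_)
    have : Continuous (fun b : Bool => xor b (h n)) := continuous_of_discreteTopology
    exact this.comp (continuous_apply n)
  continuous_invFun := by
    refine continuous_pi (fun n => ?_)
    have : Continuous (fun b : Bool => xor b (h n)) := continuous_of_discreteTopology
    exact this.comp (continuous_apply n)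

theorem meagre_xr {M : Set (ℕ → Bool)} (hM : IsMeagre M) (h : ℕ → Bool) :
    IsMeagre {γ | xr h γ ∈ M} :=
  hM.preimage_of_isOpenMap (xrH h).continuous (xrH h).isOpenMap

/-- the sum of two reals computes their xor -/
theorem ER_xr (h γ : ℕ → Bool) : ER (gr (xr h γ)) (sj (gr h) (gr γ)) := by
  refine ⟨fun X => {p : ℕ × Bool | ∃ q : Bool × Bool, (Sum.inl (p.1, q.1) ∈ X ∧
    Sum.inr (p.1, q.2) ∈ X) ∧ p.2 = xor q.2 q.1}, ?_, ?_⟩
  · have h1 : EP (fun (X : Set ((ℕ × Bool) ⊕ (ℕ × Bool))) (y : (ℕ × Bool) × (Bool × Bool)) =>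
        (Sum.inl (y.1.1, y.2.1) ∈ X ∧ Sum.inr (y.1.1, y.2.2) ∈ X) ∧ y.1.2 = xor y.2.2 y.2.1) := by
      refine EP.and (EP.and (EP.mem ?_) (EP.mem ?_)) (EP.re ?_)
      · exact Primrec.sumInl.comp ((Primrec.fst.comp Primrec.fst).pair
          (Primrec.fst.comp Primrec.snd))
      · exact Primrec.sumInr.comp ((Primrec.fst.comp Primrec.fst).pair
          (Primrec.snd.comp Primrec.snd))
      · refine RE.eq (Primrec.snd.comp Primrec.fst) ?_
        have : Primrec (fun q : Bool × Bool => xor q.2 q.1) := Primrec.dom_finite _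
        exact this.comp Primrec.snd
    exact h1.ex
  · ext ⟨n, b⟩
    simp only [mem_ofPred_eq, inl_mem_sj, inr_mem_sj]
    constructor
    · rintro ⟨⟨u, v⟩, ⟨h1, h2⟩, h3⟩
      change h n = u at h1
      change γ n = v at h2
      subst h1 h2
      exact h3.symm
    · intro h1
      exact ⟨(h n, γ n), ⟨rfl, rfl⟩, Eq.symm h1⟩

end reals

section decider

variable (a : Aut)

/-- the problems `k^V`, `V ≥ g k` -/
def Fam (g : ℕ → Set ℕ) : Set (Set ℕ) := {Z | ∃ k V, ER (g k) V ∧ Z = tg k V}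

theorem exists_ops (g : ℕ → Set ℕ) : ∃ Ω : ℕ → Set ℕ → Set ℕ, (∀ k, IsOp (Ω k)) ∧
    ∀ k V, ER (a.pi (g k)) V → Ω k V ∈ a.F (Fam g) := by
  have h : ∀ k, ∃ Φ : Set ℕ → Set ℕ, IsOp Φ ∧ ∀ V, ER (a.pi (g k)) V → Φ V ∈ a.F (Fam g) := by
    intro k
    have h1 : PR (Fam g) (MU {g k}) := by
      refine ⟨tg k, IsOp_tg k, ?_⟩
      rintro V ⟨X, hX, hV⟩
      rw [mem_singleton_iff] at hX
      subst hX
      exact ⟨k, V, hV, rfl⟩
    obtain ⟨Φ, hΦ, h2⟩ := (a.F_mono _ _ h1).trans (a.F_MU {g k}).1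
    exact ⟨Φ, hΦ, fun V hV => h2 V ⟨a.pi (g k), ⟨g k, rfl, rfl⟩, hV⟩⟩
  choose Ω hΩ hΩ' using h
  exact ⟨Ω, hΩ, hΩ'⟩

/-- the operator reading off the marked value of `h` -/
def Rd (Z : Set ℕ) : Set Bool :=
  {v | ∃ k : ℕ, encode (Sum.inl (encode (k, v)) : ℕ ⊕ ℕ) ∈ Z ∧
    encode (Sum.inr (encode (k, 0)) : ℕ ⊕ ℕ) ∈ Z}

theorem IsOp_Rd : IsOp Rd := by
  have h1 : EP (fun (Z : Set ℕ) (y : Bool × ℕ) =>
      encode (Sum.inl (encode (y.2, y.1)) : ℕ ⊕ ℕ) ∈ Z ∧
      encode (Sum.inr (encode (y.2, 0)) : ℕ ⊕ ℕ) ∈ Z) := by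
    refine EP.and (EP.mem ?_) (EP.mem ?_)
    · exact Primrec.encode.comp (Primrec.sumInl.comp (Primrec.encode.comp
        (Primrec.snd.pair Primrec.fst)))
    · exact Primrec.encode.comp (Primrec.sumInr.comp (Primrec.encode.comp
        (Primrec.snd.pair (Primrec.const 0))))
  exact h1.ex

theorem Rd_eq (h : ℕ → Bool) (k : ℕ) (V : Set ℕ) : Rd (jn (rs h) (tg k V)) = {h k} := by
  ext v
  simp only [Rd, jn, mem_ofPred_eq, encode_mem_cd, inl_mem_sj, inr_mem_sj, mem_rs, tg_marker,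
    mem_singleton_iff]
  constructor
  · rintro ⟨k', h1, h2⟩
    rw [← h1, ← h2]
  · rintro rfl
    exact ⟨k, rfl, rfl⟩

theorem ER_jn_sj (X Y : Set ℕ) : ER (jn X Y) (sj X Y) := ER.cd_self _
theorem ER_sj_jn (X Y : Set ℕ) : ER (sj X Y) (jn X Y) := ER.of_cd _

theorem IsOp_jn {α : Type} [Primcodable α] {Φ Ψ : Set α → Set ℕ} (hΦ : IsOp Φ) (hΨ : IsOp Ψ) :
    IsOp (fun X => jn (Φ X) (Ψ X)) := (hΦ.sj hΨ).cd

theorem step_b (g : ℕ → Set ℕ) (Ω : ℕ → Set ℕ → Set ℕ) (hΩ : ∀ k, IsOp (Ω k))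
    (hΩ' : ∀ k V, ER (a.pi (g k)) V → Ω k V ∈ a.F (Fam g)) (h : ℕ → Bool)
    (hh : ∀ j k, j ≠ k → ¬ ER (g j) (sj (g k) (gr h))) :
    ER (gr h) (sj (a.pi (rs h)) {p : ℕ × ℕ | p.2 ∈ Ω p.1 univ}) := by
  classical
  obtain ⟨P, hP⟩ : ∃ P, P = a.pi (rs h) := ⟨_, rfl⟩
  let ι := {p : ℕ × Set ℕ // ER (g p.1) p.2}
  let A : ι → Set ℕ := fun i => jn (rs h) (tg i.1.1 i.1.2)
  let Q : ι → Bool := fun i => h i.1.1
  have hM : PR (a.F (range A)) (PJ {P} (a.F (Fam g))) := by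
    have h1 : PR (range A) (PJ {rs h} (Fam g)) := by
      refine PR_of_subset ?_
      rintro Z ⟨X, hX, Y, ⟨k, V, hV, rfl⟩, rfl⟩
      rw [mem_singleton_iff] at hX
      subst hX
      exact ⟨⟨(k, V), hV⟩, rfl⟩
    refine (a.F_mono _ _ h1).trans ((a.F_PJ _ _).1.trans (PJ_le ?_ (PJ_right _ _)))
    rw [hP]
    exact (a.pi_spec (rs h)).1.trans (PJ_left _ _)
  obtain ⟨Θ, hΘ, hΘ'⟩ := AD a A Q Rd IsOp_Rd (fun i => Rd_eq h _ _) _ hM
  -- the value on finite modifications of `pi (g k)`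
  have key : ∀ (k : ℕ) (s : List ℕ), Θ (jn P (Ω k (a.pi (g k) ∪ {x | x ∈ s}))) = {h k} := by
    intro k s
    obtain ⟨V, hV⟩ : ∃ V, V = a.pi (g k) ∪ {x | x ∈ s} := ⟨_, rfl⟩
    have hV1 : ER (a.pi (g k)) V := hV ▸ ER_of_union_list _ s
    have hV2 : ER V (a.pi (g k)) := hV ▸ ER_union_list _ s
    rw [← hV]
    obtain ⟨⟨⟨k', V'⟩, hi⟩, h1, h2⟩ := hΘ' (jn P (Ω k V))
      ⟨P, rfl, Ω k V, hΩ' k V hV1, rfl⟩
    have h3 : ER (g k') (jn (rs h) (g k)) := by
      rw [← a.pi_mono]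
      have h4 : ER V' (jn (rs h) (tg k' V')) := by
        obtain ⟨U, hU, hU'⟩ := exists_untag
        have : ER V' (tg k' V') := ⟨U, hU, hU' k' V'⟩
        exact this.trans (ER_jn_right _ _)
      have h5 : ER (g k') (jn (rs h) (tg k' V')) := ER.trans hi h4
      refine (a.pi_mono.2 h5).trans (ER.trans h2 ?_)
      refine ER.trans ?_ (a.pi_jn (rs h) (g k)).2
      rw [← hP]
      exact ER_jn (ER_jn_left _ _)
        ((ER.of_op (hΩ k) V).trans (hV2.trans (ER_jn_right _ _)))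
    have h4 : k' = k := by
      by_contra hne
      refine hh k' k hne (h3.trans ?_)
      exact ER_jn (ER_rs_left.2 (ER.right _ _)) (ER.left _ _)
    rw [h1]
    change {h k'} = {h k}
    rw [h4]
  -- the value on `univ`
  have key2 : ∀ k, Θ (jn P (Ω k univ)) = {h k} := by
    intro k
    apply Subset.antisymm
    · intro v hv
      have hop : IsOp (fun W : Set (ℕ ⊕ ℕ) =>
          Θ (jn {x | Sum.inl x ∈ W} (Ω k {x | Sum.inr x ∈ W}))) :=
        hΘ.comp (IsOp_jn IsOp.inl ((hΩ k).comp IsOp.inr))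
      have hv' : v ∈ (fun W : Set (ℕ ⊕ ℕ) =>
          Θ (jn {x | Sum.inl x ∈ W} (Ω k {x | Sum.inr x ∈ W}))) (sj P univ) := hv
      obtain ⟨l, hl1, hl2⟩ := hop.compact hv'
      let s : List ℕ := l.filterMap (fun z => Sum.elim (fun _ => none) some z)
      rw [← key k s]
      have hsub : {z | z ∈ l} ⊆ sj P (a.pi (g k) ∪ {x | x ∈ s}) := by
        intro z hz
        cases z with
        | inl x => exact hl1 _ hz
        | inr x =>
          refine Or.inr ?_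
          exact List.mem_filterMap.2 ⟨Sum.inr x, hz, rfl⟩
      exact hop.mono hsub hl2
    · rw [← key k []]
      refine hΘ.mono ?_
      refine image_mono ?_
      intro z hz
      cases z with
      | inl x => exact hz
      | inr x => exact (hΩ k).mono (subset_univ _) hz
  -- the reduction
  rw [← hP]
  refine ⟨fun X => {p : ℕ × Bool | p.2 ∈ Θ (jn {x | Sum.inl x ∈ X}
    {b | (Sum.inr (p.1, b) : ℕ ⊕ (ℕ × ℕ)) ∈ X})}, ?_, ?_⟩
  · refine EP_opp (P := fun Z v => v ∈ Θ Z) hΘ (Φ := fun (X : Set (ℕ ⊕ (ℕ × ℕ))) (k : ℕ) =>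
      jn {x | Sum.inl x ∈ X} {b | (Sum.inr (k, b) : ℕ ⊕ (ℕ × ℕ)) ∈ X}) ?_
    have h1 : EP (fun (X : Set (ℕ ⊕ (ℕ × ℕ))) (y : (ℕ × ℕ) × ℕ) =>
        y.1.2 = encode (Sum.inl y.2 : ℕ ⊕ ℕ) ∧ Sum.inl y.2 ∈ X) :=
      EP.and (EP.re (RE.eq (Primrec.snd.comp Primrec.fst)
        (Primrec.encode.comp (Primrec.sumInl.comp Primrec.snd))))
        (EP.mem (Primrec.sumInl.comp Primrec.snd))
    have h2 : EP (fun (X : Set (ℕ ⊕ (ℕ × ℕ))) (y : (ℕ × ℕ) × ℕ) =>
        y.1.2 = encode (Sum.inr y.2 : ℕ ⊕ ℕ) ∧ Sum.inr (y.1.1, y.2) ∈ X) :=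
      EP.and (EP.re (RE.eq (Primrec.snd.comp Primrec.fst)
        (Primrec.encode.comp (Primrec.sumInr.comp Primrec.snd))))
        (EP.mem (Primrec.sumInr.comp ((Primrec.fst.comp Primrec.fst).pair Primrec.snd)))
    refine (h1.ex.or h2.ex).of_iff ?_
    rintro X ⟨k, n⟩
    constructor
    · rintro ⟨z, hz, rfl⟩
      cases z with
      | inl x => exact Or.inl ⟨x, rfl, hz⟩
      | inr x => exact Or.inr ⟨x, rfl, hz⟩
    · rintro (⟨x, hx, hz⟩ | ⟨x, hx, hz⟩)
      · exact ⟨Sum.inl x, hz, hx.symm⟩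
      · exact ⟨Sum.inr x, hz, hx.symm⟩
  · ext ⟨k, v⟩
    have h1 : Θ (jn P {b | b ∈ Ω k univ}) = {h k} := key2 k
    change v ∈ Θ (jn P {b | b ∈ Ω k univ}) ↔ h k = v
    rw [h1, mem_singleton_iff]
    exact eq_comm

/-- (c) -/
theorem step_c : ∃ c : Set ℕ, ∀ h : ℕ → Bool, ER (rs h) (jn (a.pi (rs h)) c) := by
  obtain ⟨g', hg'⟩ := exists_antichain
  let g : ℕ → Set ℕ := fun k => rs (g' k)
  obtain ⟨Ω, hΩ, hΩ'⟩ := exists_ops a g
  let c : Set ℕ := cd {p : ℕ × ℕ | p.2 ∈ Ω p.1 univ}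
  have hb : ∀ h : ℕ → Bool, (∀ j k, j ≠ k → ¬ ER (g j) (sj (g k) (gr h))) →
      ER (rs h) (jn (a.pi (rs h)) c) := by
    intro h hh
    refine ER_rs_left.2 ((step_b a g Ω hΩ hΩ' h hh).trans ?_)
    exact ER.sj (ER_jn_left _ _) (ER.trans (ER.of_cd _) (ER_jn_right _ _))
  refine ⟨c, fun h => ?_⟩
  -- the meagre set to be avoided
  have hM1 : IsMeagre (⋃ p : {p : ℕ × ℕ // p.1 ≠ p.2},
      {γ : ℕ → Bool | ER (g p.1.1) (sj (g p.1.2) (gr γ))}) :=
    isMeagre_iUnion (fun p => G1 (hg' _ _ p.2))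
  have hM2 := meagre_xr hM1 h
  by_contra hcon
  have hcon' : ¬ ER (a.symm.pi (rs h)) (jn (rs h) (a.symm.pi c)) := by
    intro h1
    apply hcon
    have h2 : ER (rs h) (a.pi (jn (rs h) (a.symm.pi c))) := a.le_pi_iff.2 h1
    refine h2.trans ((a.pi_jn _ _).1.trans ?_)
    exact ER_jn (ER_jn_left _ _) ((a.symm_pi c).1.trans (ER_jn_right _ _))
  have hM3 := G1 (ι := ℕ) hcon'
  obtain ⟨γ, hγ, -⟩ := exists_generic ((hM1.union hM2).union hM3) countable_empty
  simp only [mem_union, not_or] at hγ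
  obtain ⟨⟨h1, h2⟩, h3⟩ := hγ
  apply h3
  have e1 : ER (rs γ) (jn (a.pi (rs γ)) c) := by
    refine hb γ (fun j k hjk hER => h1 ?_)
    exact mem_iUnion.2 ⟨⟨(j, k), hjk⟩, hER⟩
  have e2 : ER (rs (xr h γ)) (jn (a.pi (rs (xr h γ))) c) := by
    refine hb (xr h γ) (fun j k hjk hER => h2 ?_)
    exact mem_iUnion.2 ⟨⟨(j, k), hjk⟩, hER⟩
  -- `rs h ≤ rs γ + rs (xr h γ)`
  have e3 : ER (rs h) (jn (rs γ) (rs (xr h γ))) := by
    have h4 := ER_xr (xr h γ) γ
    -- gr (xr (xr h γ) γ) = gr h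
    rw [xr_comm'] at h4
    refine ER_rs_left.2 (h4.trans ?_)
    exact ER.sj ((ER.of_cd (gr (xr h γ))).trans (ER_jn_right _ _))
      ((ER.of_cd (gr γ)).trans (ER_jn_left _ _))
  -- `rs (xr h γ) ≤ rs h + rs γ`
  have e4 : ER (rs (xr h γ)) (jn (rs h) (rs γ)) := by
    refine ER_rs_left.2 ((ER_xr h γ).trans ?_)
    exact ER.sj ((ER.of_cd (gr h)).trans (ER_jn_left _ _))
      ((ER.of_cd (gr γ)).trans (ER_jn_right _ _))
  -- everything is below `T = pi h + pi γ + c`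
  let T : Set ℕ := jn (jn (a.pi (rs h)) (a.pi (rs γ))) c
  have f1 : ER (a.pi (rs h)) T := (ER_jn_left _ _).trans (ER_jn_left _ _)
  have f2 : ER (a.pi (rs γ)) T := (ER_jn_right _ _).trans (ER_jn_left _ _)
  have f3 : ER c T := ER_jn_right _ _
  have f4 : ER (a.pi (rs (xr h γ))) T :=
    (a.pi_mono.2 e4).trans ((a.pi_jn _ _).1.trans (ER_jn f1 f2))
  have f5 : ER (rs h) T :=
    e3.trans (ER_jn (e1.trans (ER_jn f2 f3)) (e2.trans (ER_jn f4 f3)))
  have f6 : ER T (a.pi (jn (jn (rs h) (rs γ)) (a.symm.pi c))) := by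
    refine ER.trans ?_ (a.pi_jn _ _).2
    refine ER_jn (ER.trans ?_ (ER_jn_left _ _)) (ER.trans (a.symm_pi c).2 (ER_jn_right _ _))
    exact (a.pi_jn _ _).2
  have f7 : ER (a.symm.pi (rs h)) (jn (jn (rs h) (rs γ)) (a.symm.pi c)) :=
    a.le_pi_iff.1 (f5.trans f6)
  refine f7.trans ?_
  refine ER_jn (ER_jn ?_ ?_) ?_
  · exact (ER_jn_left _ _).trans (ER.left _ _)
  · exact ER_rs_left.2 (ER.right _ _)
  · exact (ER_jn_right _ _).trans (ER.left _ _)

end decider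

end B78

open B78 in
/-- **Base theorem** -/
theorem base (a : Aut) : ∃ e : Set ℕ, ∀ X : Set ℕ,
    ER (a.pi X) (jn X e) ∧ ER X (jn (a.pi X) e) := by
  obtain ⟨c, hc⟩ := step_c a
  obtain ⟨c', hc'⟩ := step_c a.symm
  obtain ⟨k₀, hk₀⟩ := exists_total_above (jn (a.symm.pi c) (a.pi c'))
  have h1 : ER (a.symm.pi c) (rs k₀) := (ER_jn_left _ _).trans hk₀
  have h2 : ER (a.pi c') (rs k₀) := (ER_jn_right _ _).trans hk₀
  have hss : ∀ X Y, ER (a.symm.pi X) Y ↔ ER X (a.pi Y) := fun X Y => a.le_pi_iff.symm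
  -- total sets above `rs k₀` are fixed
  have up : ∀ h : ℕ → Bool, ER (rs k₀) (rs h) → ER (rs h) (a.pi (rs h)) := by
    intro h hh
    refine (hc h).trans (ER_jn (ER.refl _) ?_)
    exact (hss _ _).1 (h1.trans hh)
  have dn : ∀ h : ℕ → Bool, ER (rs k₀) (rs h) → ER (a.pi (rs h)) (rs h) := by
    intro h hh
    rw [a.pi_le_iff]
    refine (hc' h).trans (ER_jn (ER.refl _) ?_)
    exact a.pi_le_iff.1 (h2.trans hh)
  have big : ∀ X, ER (a.pi (jn X (rs k₀))) (jn X (rs k₀)) ∧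
      ER (jn X (rs k₀)) (a.pi (jn X (rs k₀))) := by
    intro X
    constructor
    · refine selman (fun k hk => ?_)
      have hk0 : ER (rs k₀) (rs k) := (ER_jn_right _ _).trans hk
      exact (a.pi_mono.2 hk).trans (dn k hk0)
    · rw [← hss]
      refine selman (fun k hk => ?_)
      have hk0 : ER (rs k₀) (rs k) := (ER_jn_right _ _).trans hk
      exact (hss _ _).2 (hk.trans (up k hk0))
  refine ⟨rs k₀, fun X => ⟨?_, ?_⟩⟩
  · exact (a.pi_mono.2 (ER_jn_left _ _)).trans (big X).1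
  · refine (ER_jn_left X (rs k₀)).trans ((big X).2.trans ((a.pi_jn _ _).1.trans ?_))
    exact ER_jn (ER_jn_left _ _) ((dn k₀ (ER.refl _)).trans (ER_jn_right _ _))

end ME
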